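import Pool.Agent.N640.WR.Stm

set_option autoImplicit false

/-!
Project WR (helper640), part ASM: edge colouring of the wreath product from the colouring of the
multigraph.
-/

namespace Pool.Agent.N896.WR

open Finset SimpleGraph Pool.Agent.X76.Wr Pool.Agent.N640.WR

theorem Ob.symm' {W : Type} {G' : SimpleGraph W} {v w : W} (h : Ob G' v w) : Ob G' w v := by
  obtain ⟨φ, hφ⟩ := h
  exact ⟨φ.symm, by rw [← hφ]; simp⟩

theorem Ob.trans' {W : Type} {G' : SimpleGraph W} {u v w : W} (h : Ob G' u v) (h' : Ob G' v w) :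
    Ob G' u w := by
  obtain ⟨φ, hφ⟩ := h
  obtain ⟨ψ, hψ⟩ := h'
  exact ⟨φ.trans ψ, by simp [hφ, hψ]⟩

section
variable {W : Type} {G' : SimpleGraph W} {idx : W → ℕ}

theorem df_vals (hidx1 : ∀ w, idx w < orb G' w)
    (hidx2 : ∀ w w', Ob G' w w' → idx w = idx w' → w = w') {v w : W} (h : Ob G' v w)
    (hne : v ≠ w) : 1 ≤ df G' idx v w ∧ df G' idx v w < orb G' v ∧
      df G' idx w v = orb G' v - df G' idx v w := by
  have h1 : orb G' v = orb G' w := orb_eq G' v w h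
  have h2 := hidx1 v
  have h3 := hidx1 w
  have h4 : idx v ≠ idx w := fun h' => hne (hidx2 _ _ h h')
  unfold df
  rw [← h1] at h3 ⊢
  rw [mod_aux _ _ _ h2 h3, mod_aux _ _ _ h3 h2]
  split_ifs <;> omega

theorem df_inj_l (hidx1 : ∀ w, idx w < orb G' w)
    (hidx2 : ∀ w w', Ob G' w w' → idx w = idx w' → w = w') {v w u : W} (h : Ob G' v w)
    (h' : Ob G' v u) (heq : df G' idx v w = df G' idx v u) : w = u := by
  have h1 : orb G' v = orb G' w := orb_eq G' v w h
  have h1' : orb G' v = orb G' u := orb_eq G' v u h'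
  have h2 := hidx1 v
  have h3 := hidx1 w
  have h4 := hidx1 u
  rw [← h1] at h3
  rw [← h1'] at h4
  unfold df at heq
  rw [mod_aux _ _ _ h2 h3, mod_aux _ _ _ h2 h4] at heq
  refine hidx2 _ _ (Ob.trans' (Ob.symm' h) h') ?_
  split_ifs at heq <;> omega

end

theorem asm_ : S_ASM := by
  classical
  intro V W _ _ G G' _ d D idx t A ψ g hG h1 hidx1 hidx2 hTD hOb hA hψ1 hψ2 hg1 hg2
  obtain ⟨cG, hcG⟩ := hG
  let eV : V → ℕ := fun v => (Fintype.equivFin V v).val
  have heV : Function.Injective eV := fun a b h => (Fintype.equivFin V).injective (Fin.ext h)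
  have hMEsymm : ∀ v w i, i < d → Ob G' v w → v ≠ w → df G' idx v w ∈ A v i →
      df G' idx w v ∈ A v i := by
    intro v w i hi hvw hne h
    rw [(df_vals hidx1 hidx2 hvw hne).2.2]
    exact (hA v i hi _ h).2.2
  have hME2 : ∀ v w i, i < d → (ME G' d idx A v w i ↔
      (Ob G' v w ∧ v ≠ w ∧ df G' idx v w ∈ A v i)) := by
    intro v w i hi
    constructor
    · rintro (⟨h, -⟩ | ⟨-, h⟩)
      · omega
      · exact h
    · intro h
      exact Or.inr ⟨hi, h⟩
  have hMEs : ∀ v w i, i < d → ME G' d idx A v w i → ME G' d idx A w v i := by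
    intro v w i hi h
    rw [hME2 _ _ _ hi] at h ⊢
    refine ⟨Ob.symm' h.1, h.2.1.symm, ?_⟩
    rw [← (hOb v w h.1).2.1]
    exact hMEsymm v w i hi h.1 h.2.1 h.2.2
  -- available colours
  have hav : ∀ v, ∃ f : Fin d → ℕ, Function.Injective f ∧ ∀ j, f j < D ∧
      (∀ w i, ME G' d idx A v w i → f j ≠ g v w i) ∧
      (∀ i < d, ∀ δ, 1 ≤ δ → δ < orb G' v → δ ∉ A v i → f j ≠ (D - t v) + ψ v i δ) := by
    intro v
    let F : ℕ → ℕ → ℕ := fun i δ =>
      if h : ∃ w, (Ob G' v w ∧ v ≠ w ∧ df G' idx v w ∈ A v i) ∧ df G' idx v w = δ then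
        g v h.choose i else (D - t v) + ψ v i δ
    have hF1 : ∀ i w, (Ob G' v w ∧ v ≠ w ∧ df G' idx v w ∈ A v i) →
        F i (df G' idx v w) = g v w i := by
      intro i w hw
      have h : ∃ w', (Ob G' v w' ∧ v ≠ w' ∧ df G' idx v w' ∈ A v i) ∧
        df G' idx v w' = df G' idx v w := ⟨w, hw, rfl⟩
      have h3 : F i (df G' idx v w) = g v h.choose i := dif_pos h
      rw [h3, df_inj_l hidx1 hidx2 h.choose_spec.1.1 hw.1 h.choose_spec.2]
    have hF2 : ∀ i δ, δ ∉ A v i → F i δ = (D - t v) + ψ v i δ := by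
      intro i δ hδ
      refine dif_neg ?_
      rintro ⟨w, hw, rfl⟩
      exact hδ hw.2.2
    let B : Finset ℕ := (G'.neighborFinset v).image (fun w => g v w d) ∪
      (range d).biUnion (fun i => (Finset.Ico 1 (orb G' v)).image (F i))
    let R : Finset ℕ := range D \ B
    have hm : 1 ≤ orb G' v := lt_of_le_of_lt (Nat.zero_le _) (hidx1 v)
    have hR : d ≤ R.card := by
      have h3 : (range D).card ≤ R.card + B.card := by
        rw [← Finset.card_sdiff_add_card_inter (range D) B]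
        exact Nat.add_le_add_left (Finset.card_le_card Finset.inter_subset_right) _
      have h4 : B.card ≤ G'.degree v + d * (orb G' v - 1) := by
        refine (Finset.card_union_le _ _).trans (Nat.add_le_add ?_ ?_)
        · refine Finset.card_image_le.trans ?_
          rw [SimpleGraph.card_neighborFinset_eq_degree]
        · refine Finset.card_biUnion_le.trans ?_
          refine (Finset.sum_le_sum fun i _ => Finset.card_image_le).trans ?_
          rw [Finset.sum_const, card_range, Nat.card_Ico, smul_eq_mul]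
      rw [card_range] at h3
      have h6 := h1 v
      have h7 : d * orb G' v = d * (orb G' v - 1) + d := by
        obtain ⟨k, hk⟩ : ∃ k, orb G' v = k + 1 := ⟨orb G' v - 1, by omega⟩
        rw [hk, Nat.add_sub_cancel, Nat.mul_succ]
      omega
    have hcard : Fintype.card (Fin d) ≤ Fintype.card R := by
      rw [Fintype.card_fin, Fintype.card_coe]; exact hR
    obtain ⟨e⟩ := Function.Embedding.nonempty_of_card_le hcard
    refine ⟨fun j => (e j).1, fun a b h => e.injective (Subtype.ext h), ?_⟩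
    intro j
    have he := Finset.mem_sdiff.1 (e j).2
    refine ⟨Finset.mem_range.1 he.1, ?_, ?_⟩
    · intro w i hw heq
      apply he.2
      have heq' : (e j : ℕ) = g v w i := heq
      rw [heq']
      rcases hw with ⟨rfl, h⟩ | ⟨hi, h⟩
      · exact mem_union_left _ (mem_image.2 ⟨w, by simpa using h, rfl⟩)
      · refine mem_union_right _ (mem_biUnion.2 ⟨i, mem_range.2 hi, mem_image.2
          ⟨df G' idx v w, ?_, hF1 i w h⟩⟩)
        obtain ⟨h3, h4, -⟩ := hA v i hi _ h.2.2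
        exact Finset.mem_Ico.2 ⟨h3, h4⟩
    · intro i hi δ hδ1 hδ2 hδ3 heq
      apply he.2
      have heq' : (e j : ℕ) = (D - t v) + ψ v i δ := heq
      rw [heq']
      exact mem_union_right _ (mem_biUnion.2 ⟨i, mem_range.2 hi, mem_image.2
          ⟨δ, Finset.mem_Ico.2 ⟨hδ1, hδ2⟩, hF2 i δ hδ3⟩⟩)
  choose av hav1 hav2 using hav
  let avn : W → ℕ → ℕ := fun w j => if h : j < d then av w ⟨j, h⟩ else 0
  have havn : ∀ w j (h : j < d), avn w j = av w ⟨j, h⟩ := by
    intro w j h; simp only [avn, dif_pos h]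
  let dl : V → V → W → W → ℕ := fun x y v w =>
    if eV x < eV y then df G' idx v w else df G' idx w v
  let c : V × W → V × W → ℕ := fun p r =>
    if p.1 = r.1 then g p.2 r.2 d else if p.2 = r.2 then avn p.2 (cG p.1 r.1) else
      if ME G' d idx A p.2 r.2 (cG p.1 r.1) then g p.2 r.2 (cG p.1 r.1) else
        (D - t p.2) + ψ p.2 (cG p.1 r.1) (dl p.1 r.1 p.2 r.2)
  have hdl : ∀ x y v w i, i < d → Ob G' v w → v ≠ w → ¬ ME G' d idx A v w i →
      1 ≤ dl x y v w ∧ dl x y v w < orb G' v ∧ dl x y v w ∉ A v i := by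
    intro x y v w i hi hvw hne hnot
    obtain ⟨h3, h4, h5⟩ := df_vals hidx1 hidx2 hvw hne
    have h6 : df G' idx v w ∉ A v i := fun h => hnot ((hME2 _ _ _ hi).2 ⟨hvw, hne, h⟩)
    simp only [dl]
    split_ifs
    · exact ⟨h3, h4, h6⟩
    · refine ⟨by omega, by omega, fun h => h6 ?_⟩
      have h7 := (hA v i hi _ h).2.2
      rw [h5] at h7
      have h8 : orb G' v - (orb G' v - df G' idx v w) = df G' idx v w := by omega
      rwa [h8] at h7
  -- the three kinds
  have hkind : ∀ p r : V × W, (wreath G G').Adj p r →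
      (∃ i, ME G' d idx A p.2 r.2 i ∧ c p r = g p.2 r.2 i ∧
        ((i = d ∧ p.1 = r.1) ∨ (i < d ∧ G.Adj p.1 r.1 ∧ i = cG p.1 r.1))) ∨
      (p.2 = r.2 ∧ G.Adj p.1 r.1 ∧ c p r = avn p.2 (cG p.1 r.1)) ∨
      (G.Adj p.1 r.1 ∧ Ob G' p.2 r.2 ∧ p.2 ≠ r.2 ∧ ¬ ME G' d idx A p.2 r.2 (cG p.1 r.1) ∧
        c p r = (D - t p.2) + ψ p.2 (cG p.1 r.1) (dl p.1 r.1 p.2 r.2)) := by
    intro p r hpr
    rcases hpr with ⟨h3, h4⟩ | ⟨h3, h4⟩
    · exact Or.inl ⟨d, Or.inl ⟨rfl, h4⟩, by simp only [c, if_pos h3], Or.inl ⟨rfl, h3⟩⟩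
    · have h5 := G.ne_of_adj h3
      by_cases h6 : p.2 = r.2
      · exact Or.inr (Or.inl ⟨h6, h3, by simp only [c, if_neg h5, if_pos h6]⟩)
      · by_cases h7 : ME G' d idx A p.2 r.2 (cG p.1 r.1)
        · exact Or.inl ⟨_, h7, by simp only [c, if_neg h5, if_neg h6, if_pos h7],
            Or.inr ⟨(hcG _ _ h3).2.1, h3, rfl⟩⟩
        · exact Or.inr (Or.inr ⟨h3, h4, h6, h7, by
            simp only [c, if_neg h5, if_neg h6, if_neg h7]⟩)
  refine ⟨c, fun p r hpr => ⟨?_, ?_, ?_⟩⟩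
  · -- symmetry
    rcases hpr with ⟨h3, h4⟩ | ⟨h3, h4⟩
    · have e1 : c p r = g p.2 r.2 d := by simp only [c, if_pos h3]
      have e2 : c r p = g r.2 p.2 d := by simp only [c, if_pos h3.symm]
      rw [e1, e2]
      exact (hg1 p.2 r.2 d (Or.inl ⟨rfl, h4⟩)).2
    · have h5 := G.ne_of_adj h3
      have hsym : cG r.1 p.1 = cG p.1 r.1 := (hcG _ _ h3).1.symm
      have hlt := (hcG _ _ h3).2.1
      by_cases h6 : p.2 = r.2
      · have e1 : c p r = avn p.2 (cG p.1 r.1) := by simp only [c, if_neg h5, if_pos h6]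
        have e2 : c r p = avn r.2 (cG r.1 p.1) := by
          simp only [c, if_neg h5.symm, if_pos h6.symm]
        rw [e1, e2, hsym, h6]
      · by_cases h7 : ME G' d idx A p.2 r.2 (cG p.1 r.1)
        · have h7' : ME G' d idx A r.2 p.2 (cG r.1 p.1) := by
            rw [hsym]; exact hMEs _ _ _ hlt h7
          have e1 : c p r = g p.2 r.2 (cG p.1 r.1) := by
            simp only [c, if_neg h5, if_neg h6, if_pos h7]
          have e2 : c r p = g r.2 p.2 (cG r.1 p.1) := by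
            simp only [c, if_neg h5.symm, if_neg (Ne.symm h6), if_pos h7']
          rw [e1, e2, hsym]
          exact (hg1 _ _ _ h7).2
        · have h7' : ¬ ME G' d idx A r.2 p.2 (cG r.1 p.1) := by
            rw [hsym]; exact fun h => h7 (hMEs _ _ _ hlt h)
          have e1 : c p r = (D - t p.2) + ψ p.2 (cG p.1 r.1) (dl p.1 r.1 p.2 r.2) := by
            simp only [c, if_neg h5, if_neg h6, if_neg h7]
          have e2 : c r p = (D - t r.2) + ψ r.2 (cG r.1 p.1) (dl r.1 p.1 r.2 p.2) := by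
            simp only [c, if_neg h5.symm, if_neg (Ne.symm h6), if_neg h7']
          obtain ⟨o1, -, o2⟩ := hOb p.2 r.2 h4
          have e3 : dl r.1 p.1 r.2 p.2 = dl p.1 r.1 p.2 r.2 := by
            have h8 : eV p.1 ≠ eV r.1 := fun h => h5 (heV h)
            simp only [dl]
            by_cases h9 : eV p.1 < eV r.1
            · rw [if_pos h9, if_neg (by omega)]
            · rw [if_neg h9, if_pos (by omega)]
          rw [e1, e2, hsym, e3, o1, o2]
  · -- range
    rcases hkind p r hpr with ⟨i, hi1, hi2, -⟩ | ⟨-, h3, h4⟩ | ⟨h3, h4, h5, h6, h7⟩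
    · rw [hi2]
      have := (hg1 _ _ _ hi1).1
      omega
    · rw [h4, havn _ _ (hcG _ _ h3).2.1]
      exact (hav2 _ _).1
    · rw [h7]
      have hlt := (hcG _ _ h3).2.1
      obtain ⟨k1, k2, k3⟩ := hdl p.1 r.1 p.2 r.2 _ hlt h4 h5 h6
      have := hψ1 p.2 _ hlt _ k1 k2 k3
      have := hTD p.2
      omega
  · intro s hps hrs
    -- the unordered comparisons
    have h13 : ∀ r s : V × W, (∃ i, ME G' d idx A p.2 r.2 i ∧ c p r = g p.2 r.2 i ∧
        ((i = d ∧ p.1 = r.1) ∨ (i < d ∧ G.Adj p.1 r.1 ∧ i = cG p.1 r.1))) →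
        (G.Adj p.1 s.1 ∧ Ob G' p.2 s.2 ∧ p.2 ≠ s.2 ∧ ¬ ME G' d idx A p.2 s.2 (cG p.1 s.1) ∧
        c p s = (D - t p.2) + ψ p.2 (cG p.1 s.1) (dl p.1 s.1 p.2 s.2)) → c p r ≠ c p s := by
      rintro r s ⟨i, hi1, hi2, -⟩ ⟨-, -, -, -, h7⟩
      have := (hg1 _ _ _ hi1).1
      rw [hi2, h7]
      omega
    have h12 : ∀ r s : V × W, (∃ i, ME G' d idx A p.2 r.2 i ∧ c p r = g p.2 r.2 i ∧
        ((i = d ∧ p.1 = r.1) ∨ (i < d ∧ G.Adj p.1 r.1 ∧ i = cG p.1 r.1))) →
        (p.2 = s.2 ∧ G.Adj p.1 s.1 ∧ c p s = avn p.2 (cG p.1 s.1)) → c p r ≠ c p s := by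
      rintro r s ⟨i, hi1, hi2, -⟩ ⟨-, h3, h4⟩
      rw [hi2, h4, havn _ _ (hcG _ _ h3).2.1]
      exact ((hav2 p.2 _).2.1 _ _ hi1).symm
    have h23 : ∀ r s : V × W, (p.2 = r.2 ∧ G.Adj p.1 r.1 ∧ c p r = avn p.2 (cG p.1 r.1)) →
        (G.Adj p.1 s.1 ∧ Ob G' p.2 s.2 ∧ p.2 ≠ s.2 ∧ ¬ ME G' d idx A p.2 s.2 (cG p.1 s.1) ∧
        c p s = (D - t p.2) + ψ p.2 (cG p.1 s.1) (dl p.1 s.1 p.2 s.2)) → c p r ≠ c p s := by
      rintro r s ⟨-, h3, h4⟩ ⟨k1, k2, k3, k4, k5⟩
      have hlt := (hcG _ _ k1).2.1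
      obtain ⟨l1, l2, l3⟩ := hdl p.1 s.1 p.2 s.2 _ hlt k2 k3 k4
      rw [h4, havn _ _ (hcG _ _ h3).2.1, k5]
      exact (hav2 p.2 _).2.2 _ hlt _ l1 l2 l3
    rcases hkind p r hpr with hr | hr | hr <;> rcases hkind p s hps with hs | hs | hs
    · obtain ⟨i, hi1, hi2, hi3⟩ := hr
      obtain ⟨j, hj1, hj2, hj3⟩ := hs
      rw [hi2, hj2]
      intro heq
      obtain ⟨e1, e2⟩ := hg2 _ _ _ _ _ hi1 hj1 heq
      subst e2
      apply hrs
      rcases hi3 with ⟨hi4, hi5⟩ | ⟨hi4, hi5, hi6⟩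
      · rcases hj3 with ⟨hj4, hj5⟩ | ⟨hj4, hj5, hj6⟩
        · exact Prod.ext (hi5.symm.trans hj5) e1
        · omega
      · rcases hj3 with ⟨hj4, hj5⟩ | ⟨hj4, hj5, hj6⟩
        · omega
        · refine Prod.ext ?_ e1
          by_contra hne
          exact (hcG _ _ hi5).2.2 _ hj5 hne (hi6.symm.trans hj6)
    · exact h12 r s hr hs
    · exact h13 r s hr hs
    · exact (h12 s r hs hr).symm
    · obtain ⟨h3, h4, h5⟩ := hr
      obtain ⟨k3, k4, k5⟩ := hs
      rw [h5, k5, havn _ _ (hcG _ _ h4).2.1, havn _ _ (hcG _ _ k4).2.1]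
      intro heq
      have h6 : cG p.1 r.1 = cG p.1 s.1 := congrArg Fin.val (hav1 p.2 heq)
      apply hrs
      refine Prod.ext ?_ (h3.symm.trans k3)
      by_contra hne
      exact (hcG _ _ h4).2.2 _ k4 hne h6
    · exact h23 r s hr hs
    · exact (h13 s r hs hr).symm
    · exact (h23 s r hs hr).symm
    · obtain ⟨h3, h4, h5, h6, h7⟩ := hr
      obtain ⟨k3, k4, k5, k6, k7⟩ := hs
      rw [h7, k7]
      intro heq
      have hlt := (hcG _ _ h3).2.1
      have klt := (hcG _ _ k3).2.1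
      obtain ⟨l1, l2, l3⟩ := hdl p.1 r.1 p.2 r.2 _ hlt h4 h5 h6
      obtain ⟨m1, m2, m3⟩ := hdl p.1 s.1 p.2 s.2 _ klt k4 k5 k6
      obtain ⟨e1, e2⟩ := hψ2 p.2 _ hlt _ klt _ _ l1 l2 l3 m1 m2 m3 (by omega)
      have e3 : r.1 = s.1 := by
        by_contra hne
        exact (hcG _ _ h3).2.2 _ k3 hne e1
      apply hrs
      refine Prod.ext e3 ?_
      have e4 : df G' idx p.2 r.2 = df G' idx p.2 s.2 := by
        have q1 := df_vals hidx1 hidx2 h4 h5
        have q2 := df_vals hidx1 hidx2 k4 k5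
        simp only [dl, e3] at e2
        split_ifs at e2
        · exact e2
        · omega
      exact df_inj_l hidx1 hidx2 h4 k4 e4

end Pool.Agent.N896.WR
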